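import Pool.Agent.helper51.QS.SpecB
import Pool.Agent.helper16.PC.CONR
import Pool.Agent.helper16.PC.LDV

set_option autoImplicit false

namespace Pool.Agent.QS

open Pool.Agent.PC MvPolynomial

universe u

/-- the localisation of a normal noetherian domain at a prime of height one is a discrete valuation
ring (copied from row LVQ of helper82) -/
theorem LRF_dvr (A B : Type u) [CommRing A] [IsDomain A] [IsNoetherianRing A]
    [IsIntegrallyClosed A] (Q : Ideal A) [Q.IsPrime] (hQ : Q.height = 1) [CommRing B] [IsDomain B]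
    [Algebra A B] [IsLocalization.AtPrime B Q] : IsDiscreteValuationRing B := by
  have hM : Q.primeCompl ≤ nonZeroDivisors A := Q.primeCompl_le_nonZeroDivisors
  have hloc : IsLocalRing B := IsLocalization.AtPrime.isLocalRing B Q
  have hnoe : IsNoetherianRing B := IsLocalization.isNoetherianRing Q.primeCompl B inferInstance
  have hic : IsIntegrallyClosed B := isIntegrallyClosed_of_isLocalization B Q.primeCompl hM
  have hQb : Q ≠ ⊥ := Ideal.ne_bot_of_height_eq_one hQ
  have hinj : Function.Injective (algebraMap A B) := IsLocalization.injective B hM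
  obtain ⟨a, haQ, ha0⟩ := Submodule.exists_mem_ne_zero_of_ne_bot hQb
  have hamem : algebraMap A B a ∈ IsLocalRing.maximalIdeal B :=
    (IsLocalization.AtPrime.to_map_mem_maximal_iff B Q a).mpr haQ
  have ha0' : algebraMap A B a ≠ 0 := fun h => ha0 (hinj (by rw [h, map_zero]))
  have hmax : IsLocalRing.maximalIdeal B ≠ ⊥ := by
    intro h
    rw [h] at hamem
    exact ha0' hamem
  have hnf : ¬ IsField B := fun h => hmax (IsLocalRing.isField_iff_maximalIdeal_eq.mp h)
  have htf : (IsIntegrallyClosed B ∧ ∃! P : Ideal B, P ≠ ⊥ ∧ P.IsPrime) ↔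
      IsDiscreteValuationRing B := (IsDiscreteValuationRing.TFAE B hnf).out 3 0
  refine htf.mp ⟨hic, IsLocalRing.maximalIdeal B, ⟨hmax, inferInstance⟩, ?_⟩
  rintro P ⟨hPb, hP⟩
  have hPle : P ≤ IsLocalRing.maximalIdeal B := IsLocalRing.le_maximalIdeal hP.ne_top
  have hP' : (P.under A).IsPrime := inferInstance
  have hle : P.under A ≤ Q := by
    intro x hx
    exact (IsLocalization.AtPrime.to_map_mem_maximal_iff B Q x).mp (hPle hx)
  have hPm : Ideal.map (algebraMap A B) (P.under A) = P := IsLocalization.map_under Q.primeCompl B P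
  have hPb' : P.under A ≠ ⊥ := by
    intro h
    rw [h, Ideal.map_bot] at hPm
    exact hPb hPm.symm
  have hht : Q.height ≤ (P.under A).height := by
    rw [hQ, Order.one_le_iff_ne_zero]
    intro h
    exact hPb' (Ideal.height_eq_zero_iff_eq_bot.mp h)
  have heq : P.under A = Q := Ideal.eq_of_le_of_height_le _ hle hht
  have hmm : Ideal.map (algebraMap A B) ((IsLocalRing.maximalIdeal B).under A) =
      IsLocalRing.maximalIdeal B := IsLocalization.map_under Q.primeCompl B _
  have hmu : (IsLocalRing.maximalIdeal B).under A = Q := by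
    ext x
    exact IsLocalization.AtPrime.to_map_mem_maximal_iff B Q x
  rw [← hPm, heq, ← hmu, hmm]

theorem LRF_val (R F : Type u) [CommRing R] [IsDomain R] [IsNoetherianRing R] [IsIntegrallyClosed R]
    [Field F] [Algebra R F] [IsFractionRing R F] (P : Ideal R) [P.IsPrime] (hP : P.height = 1) :
    ∃ O : ValuationSubring F, IsLocAt P O := by
  have hM : P.primeCompl ≤ nonZeroDivisors R := P.primeCompl_le_nonZeroDivisors
  let B := Localization.subalgebra.ofField F P.primeCompl hM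
  have hloc : IsLocalization.AtPrime B P := Localization.subalgebra.isLocalization_ofField F _ hM
  have hdvr : IsDiscreteValuationRing B := LRF_dvr R B P hP
  refine ⟨ValuationSubring.ofSubring B.toSubring fun x => ?_, fun x => ?_⟩
  · rcases ValuationRing.isInteger_or_isInteger B x with ⟨y, hy⟩ | ⟨y, hy⟩
    · left
      rw [← hy]
      exact y.2
    · right
      rw [← hy]
      exact y.2
  · rw [ValuationSubring.mem_ofSubring]
    constructor
    · rintro ⟨a, s, hs, hx⟩
      exact ⟨a, s, hs, by rw [hx, div_eq_mul_inv]⟩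
    · rintro ⟨a, s, hs, hx⟩
      exact ⟨a, s, hs, by rw [hx, div_eq_mul_inv]⟩

/-- uniformizers -/
theorem LRF_ord {F : Type u} [Field F] (O : ValuationSubring F) [IsDiscreteValuationRing O] :
    ∃ w : F, IsUnif O w ∧ ∀ x : F, x ≠ 0 → ∃ (t : ℤ) (u : F), O.valuation u = 1 ∧ x = u * w ^ t := by
  obtain ⟨ϖ, hϖ⟩ := IsDiscreteValuationRing.exists_irreducible O
  refine ⟨ϖ, ⟨?_, ?_⟩, ?_⟩
  · intro h
    exact hϖ.ne_zero (Subtype.ext h)
  · intro x
    rw [ValuationSubring.mem_nonunits_iff_exists_mem_maximalIdeal, hϖ.maximalIdeal_eq]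
    constructor
    · rintro ⟨hx, h⟩
      obtain ⟨y, hy⟩ := Ideal.mem_span_singleton.1 h
      exact ⟨y, y.2, congrArg Subtype.val hy⟩
    · rintro ⟨y, hy, h⟩
      have hx : x ∈ O := by
        rw [h]
        exact O.mul_mem _ _ ϖ.2 hy
      exact ⟨hx, Ideal.mem_span_singleton.2 ⟨⟨y, hy⟩, Subtype.ext h⟩⟩
  · intro x hx
    obtain ⟨n, u, hu⟩ := IsDiscreteValuationRing.exists_units_eq_smul_zpow_of_irreducible hϖ hx
    refine ⟨n, ((u : O) : F), O.valuation_unit u, ?_⟩
    rw [hu, Units.smul_def, Algebra.smul_def]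
    rfl

theorem LRF_Restr {F K : Type u} [Field F] [Field K] [Algebra F K] {v : K → ℤ} (hv : DVal v)
    (O : ValuationSubring F) (w : F) (hw : IsUnif O w)
    (hord : ∀ x : F, x ≠ 0 → ∃ (t : ℤ) (u : F), O.valuation u = 1 ∧ x = u * w ^ t)
    (h0 : ∀ x : F, x ∈ O → Ge v 0 (algebraMap F K x)) (h1 : 0 < v (algebraMap F K w)) : Restr v O w := by
  have hne : ∀ x : F, x ≠ 0 → algebraMap F K x ≠ 0 := fun x hx => (map_ne_zero _).2 hx
  have hunit : ∀ x y : F, x ∈ O → y ∈ O → x * y = 1 → v (algebraMap F K x) = 0 := by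
    intro x y hx hy hxy
    have hx0 : x ≠ 0 := left_ne_zero_of_mul (by rw [hxy]; exact one_ne_zero)
    have hy0 : y ≠ 0 := right_ne_zero_of_mul (by rw [hxy]; exact one_ne_zero)
    have h2 := (h0 x hx).resolve_left (hne x hx0)
    have h3 := (h0 y hy).resolve_left (hne y hy0)
    have h4 := hv.mul _ _ (hne x hx0) (hne y hy0)
    rw [← map_mul, hxy, map_one, CON_one hv] at h4
    omega
  have hval : ∀ u : F, O.valuation u = 1 → u ≠ 0 ∧ v (algebraMap F K u) = 0 := by
    intro u hu
    have hu0 : u ≠ 0 := by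
      rintro rfl
      rw [map_zero] at hu
      exact zero_ne_one hu
    refine ⟨hu0, hunit u u⁻¹ ((O.valuation_le_one_iff u).1 hu.le) ((O.valuation_le_one_iff _).1 ?_)
      (mul_inv_cancel₀ hu0)⟩
    rw [map_inv₀, hu, inv_one]
  have hw0 : w ≠ 0 := hw.1
  have hv1 : ∀ (u : F) (t : ℤ), O.valuation u = 1 → v (algebraMap F K (u * w ^ t)) =
      t * v (algebraMap F K w) := by
    intro u t hu
    obtain ⟨h2, h3⟩ := hval u hu
    rw [map_mul, map_zpow₀, hv.mul _ _ (hne u h2) (zpow_ne_zero t (hne w hw0)), h3,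
      CON_zpow hv _ (hne w hw0), zero_add]
  have hwO : w ∈ O := by
    have : w ∈ O.nonunits := (hw.2 w).2 ⟨1, O.one_mem, (mul_one w).symm⟩
    exact ValuationSubring.nonunits_subset this
  refine ⟨fun x => ⟨h0 x, fun hx => ?_⟩, hw, h1, fun x t hx => ⟨?_, ?_⟩⟩
  · by_cases hx0 : x = 0
    · rw [hx0]
      exact O.zero_mem
    · obtain ⟨t, u, hu, hxu⟩ := hord x hx0
      have h2 := hx.resolve_left (hne x hx0)
      rw [hxu, hv1 u t hu] at h2
      have ht : 0 ≤ t := by
        by_contra hcon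
        have : t ≤ -1 := by omega
        nlinarith
      obtain ⟨m, rfl⟩ := Int.eq_ofNat_of_zero_le ht
      rw [hxu]
      refine O.mul_mem _ _ ((O.valuation_le_one_iff u).1 hu.le) ?_
      rw [zpow_natCast]
      exact pow_mem hwO m
  · rintro ⟨π, u, hπ, hu, hxu⟩
    -- both are uniformizers
    have h2 : π ∈ O.nonunits := (hπ.2 π).2 ⟨1, O.one_mem, (mul_one π).symm⟩
    have h3 : w ∈ O.nonunits := (hw.2 w).2 ⟨1, O.one_mem, (mul_one w).symm⟩
    obtain ⟨y, hy, hy2⟩ := (hw.2 π).1 h2
    obtain ⟨y', hy', hy2'⟩ := (hπ.2 w).1 h3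
    have h4 : y * y' = 1 := by
      have : w * (y * y') = w * 1 := by
        rw [mul_one, ← mul_assoc, ← hy2, ← hy2']
      exact mul_left_cancel₀ hw0 this
    have h5 := hunit y y' hy hy' h4
    have hy0 : y ≠ 0 := left_ne_zero_of_mul (by rw [h4]; exact one_ne_zero)
    have h6 : v (algebraMap F K π) = v (algebraMap F K w) := by
      rw [hy2, map_mul, hv.mul _ _ (hne w hw0) (hne y hy0), h5, add_zero]
    obtain ⟨h7, h8⟩ := hval u hu
    have hπ0 : π ≠ 0 := hπ.1
    rw [hxu, map_mul, map_zpow₀, hv.mul _ _ (hne u h7) (zpow_ne_zero t (hne π hπ0)), h8,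
      CON_zpow hv _ (hne π hπ0), zero_add, h6]
  · intro h
    obtain ⟨t', u, hu, hxu⟩ := hord x hx
    have h2 := hv1 u t' hu
    rw [← hxu, h] at h2
    have h3 : t = t' := mul_right_cancel₀ h1.ne' h2
    exact ⟨w, u, hw, hu, by rw [h3]; exact hxu⟩

theorem LRF : LRF_stmt.{u} := by
  intro R A F K _ _ _ _ _ _ _ _ _ _ _ _ _ _ _ _ _ Q P hQ hPQ hht v hv
  have hPprime : P.IsPrime := by
    rw [hPQ]
    exact Ideal.comap_isPrime _ _
  obtain ⟨hdv, hloc, hmem⟩ := hv
  obtain ⟨O, hO⟩ := LRF_val R F P hht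
  have hdvr : IsDiscreteValuationRing O := LDV R F P O hPprime hht hO
  obtain ⟨w, hw, hord⟩ := LRF_ord O
  have e : ∀ r : R, algebraMap F K (algebraMap R F r) = algebraMap A K (algebraMap R A r) := by
    intro r
    rw [← IsScalarTower.algebraMap_apply, ← IsScalarTower.algebraMap_apply]
  have hnot : ∀ s : R, s ∉ P → algebraMap R A s ∉ Q := by
    intro s hs h
    apply hs
    rw [hPQ]
    exact h
  have hs0 : ∀ s : R, s ∉ P → algebraMap F K (algebraMap R F s) ≠ 0 ∧
      v (algebraMap F K (algebraMap R F s)) = 0 := by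
    intro s hs
    rw [e s]
    have h1 : ¬ Ge v 1 (algebraMap A K (algebraMap R A s)) := fun h => hnot s hs ((hmem _).2 h)
    have h2 : Ge v 0 (algebraMap A K (algebraMap R A s)) :=
      (hloc _).2 ⟨algebraMap R A s, 1, fun h => hQ.ne_top ((Ideal.eq_top_iff_one _).2 h), by
        rw [map_one, div_one]⟩
    unfold Ge at h1 h2
    push Not at h1
    exact ⟨h1.1, by have := h2.resolve_left h1.1; omega⟩
  have h0 : ∀ x : F, x ∈ O → Ge v 0 (algebraMap F K x) := by
    intro x hx
    obtain ⟨a, s, hs, hx2⟩ := (hO x).1 hx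
    rw [hloc]
    refine ⟨algebraMap R A a, algebraMap R A s, hnot s hs, ?_⟩
    rw [hx2, map_div₀, e, e]
  refine ⟨O, w, hO, LRF_Restr hdv O w hw hord h0 ?_⟩
  have h3 : w ∈ O.nonunits := (hw.2 w).2 ⟨1, O.one_mem, (mul_one w).symm⟩
  obtain ⟨a, s, hs, hx2⟩ := (hO w).1 (ValuationSubring.nonunits_subset h3)
  have hw0 : w ≠ 0 := hw.1
  have haP : a ∈ P := by
    by_contra ha
    have h4 : w⁻¹ ∈ O := (hO _).2 ⟨s, a, ha, by rw [hx2, inv_div]⟩
    rcases (O.mem_nonunits_iff_or).1 h3 with h | h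
    · exact hw0 h
    · exact h h4
  have haQ : algebraMap R A a ∈ Q := by
    rw [hPQ] at haP
    exact haP
  have h5 := (hmem _).1 haQ
  rw [← e] at h5
  have ha0 : algebraMap F K (algebraMap R F a) ≠ 0 := by
    intro h
    apply hw0
    rw [hx2, (map_eq_zero (algebraMap F K)).1 h, zero_div]
  obtain ⟨h6, h7⟩ := hs0 s hs
  have h8 := h5.resolve_left ha0
  rw [hx2, map_div₀, CON_div hdv _ _ ha0 h6, h7]
  omega

end Pool.Agent.QS
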