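import Pool.Agent.helper51.QS.SpecB

set_option autoImplicit false

namespace Pool.Agent.QS

open Pool.Agent.PC MvPolynomial

universe u

/-- the subspace of the elements moved into `Q` -/
def SPN_W {k A G : Type u} [Field k] [CommRing A] [Algebra k A] [Group G] [MulSemiringAction G A]
    [SMulCommClass G k A] (Q : Ideal A) (g : G) : Submodule k A where
  carrier := {b | g • b - b ∈ Q}
  zero_mem' := by
    change g • (0 : A) - 0 ∈ Q
    rw [smul_zero, sub_zero]
    exact Q.zero_mem
  add_mem' := by
    intro a b ha hb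
    change g • (a + b) - (a + b) ∈ Q
    have e : g • (a + b) - (a + b) = (g • a - a) + (g • b - b) := by
      rw [smul_add]; ring
    rw [e]
    exact Q.add_mem ha hb
  smul_mem' := by
    intro c b hb
    change g • (c • b) - c • b ∈ Q
    have e : g • (c • b) - c • b = algebraMap k A c * (g • b - b) := by
      rw [smul_comm, ← smul_sub, Algebra.smul_def]
    rw [e]
    exact Q.mul_mem_left _ hb

theorem SPN : SPN_stmt.{u} := by
  intro k A G _ _ _ _ _ _ _ _ Q h
  by_contra hcon
  push Not at hcon
  have hcov : ⋃ i : {g : G // g ≠ 1}, ((SPN_W (k := k) Q i.1 : Submodule k A) : Set A) = Set.univ := by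
    rw [Set.eq_univ_iff_forall]
    intro b
    obtain ⟨g, hg, hb⟩ := hcon b
    exact Set.mem_iUnion.2 ⟨⟨g, hg⟩, hb⟩
  obtain ⟨i, hi⟩ := Subspace.exists_eq_top_of_iUnion_eq_univ hcov
  obtain ⟨a, ha⟩ := h i.1 i.2
  have : a ∈ SPN_W (k := k) Q i.1 := by
    rw [hi]
    exact Submodule.mem_top
  exact ha this

end Pool.Agent.QS
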