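import Pool.Agent.helper51.QS.SpecA
import Pool.Agent.helper16.PC.CONR
import Pool.Agent.helper13.PC.ASA

set_option autoImplicit false

namespace Pool.Agent.QS

open Pool.Agent.PC MvPolynomial

universe u

theorem VBD_dvd {k : Type u} [Field k] (p : ℕ) [Fact p.Prime] [CharP k p] {n : ℕ}
    (P : MvPolynomial (Fin n) k) (h : ∀ i, pderiv i P = 0) (m : Fin n →₀ ℕ) (hm : m ∈ P.support)
    (i : Fin n) : p ∣ m i := by
  by_cases h0 : m i = 0
  · rw [h0]
    exact dvd_zero p
  have e : m - Finsupp.single i 1 + Finsupp.single i 1 = m := by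
    refine tsub_add_cancel_of_le ?_
    rw [Finsupp.single_le_iff]
    omega
  have h1 := coeff_pderiv (i := i) P (m - Finsupp.single i 1)
  rw [e, h i, coeff_zero] at h1
  have h2 : coeff m P ≠ 0 := mem_support_iff.1 hm
  have h3 := (mul_eq_zero.1 h1.symm).resolve_left h2
  have h4 : (((m - Finsupp.single i 1 : Fin n →₀ ℕ) i + 1 : ℕ) : k) = 0 := by
    push_cast
    exact h3
  rw [CharP.cast_eq_zero_iff k p] at h4
  have h5 : (m - Finsupp.single i 1 : Fin n →₀ ℕ) i + 1 = m i := by
    simp only [Finsupp.coe_tsub, Pi.sub_apply, Finsupp.single_eq_same]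
    omega
  rwa [h5] at h4

theorem VBD_root {k : Type u} [Field k] [IsAlgClosed k] (p : ℕ) [Fact p.Prime] [CharP k p] {n : ℕ}
    (P : MvPolynomial (Fin n) k) (h : ∀ i, pderiv i P = 0) : ∃ Q : MvPolynomial (Fin n) k, P = Q ^ p := by
  obtain ⟨d, hd⟩ : ∃ d : (Fin n →₀ ℕ) → (Fin n →₀ ℕ), ∀ m ∈ P.support, p • d m = m := by
    refine ⟨fun m => m.mapRange (fun a => a / p) (Nat.zero_div p), fun m hm => ?_⟩
    ext i
    rw [Finsupp.smul_apply, Finsupp.mapRange_apply, smul_eq_mul]
    exact Nat.mul_div_cancel' (VBD_dvd p P h m hm i)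
  obtain ⟨Q', hQ'⟩ : ∃ Q' : MvPolynomial (Fin n) k, Q' = ∑ m ∈ P.support, monomial (d m) (coeff m P) :=
    ⟨_, rfl⟩
  have h1 : expand p Q' = P := by
    rw [hQ', map_sum]
    conv_rhs => rw [← support_sum_monomial_coeff P]
    refine Finset.sum_congr rfl fun m hm => ?_
    rw [expand_monomial, hd m hm]
  have : ExpChar k p := ExpChar.prime (Fact.out)
  refine ⟨map ((frobeniusEquiv k p).symm : k →+* k) Q', ?_⟩
  have h2 : map (frobenius k p) (map ((frobeniusEquiv k p).symm : k →+* k) Q') = Q' := by
    rw [map_map]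
    have h3 : (frobenius k p).comp ((frobeniusEquiv k p).symm : k →+* k) = RingHom.id k := by
      ext x
      simp
    rw [h3, map_id]
  rw [← map_frobenius_expand p, map_expand, h2, h1]

theorem VBD_deg_pow {k : Type u} [Field k] {n : ℕ} (Q : MvPolynomial (Fin n) k) (hQ : Q ≠ 0) (j : ℕ) :
    (Q ^ j).totalDegree = j * Q.totalDegree := by
  induction j with
  | zero => rw [pow_zero, totalDegree_one, zero_mul]
  | succ j ih =>
    rw [pow_succ, totalDegree_mul_of_isDomain (pow_ne_zero j hQ) hQ, ih]
    ring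

theorem VBD_deg_pderiv {k : Type u} [Field k] {n : ℕ} (P : MvPolynomial (Fin n) k) (i : Fin n)
    (h : pderiv i P ≠ 0) : (pderiv i P).totalDegree < P.totalDegree := by
  obtain ⟨m, hm, hmd⟩ : ∃ m ∈ (pderiv i P).support, (pderiv i P).totalDegree = m.degree := by
    have hne : (pderiv i P).support.Nonempty := support_nonempty.2 h
    obtain ⟨m, hm, hmd⟩ := Finset.exists_mem_eq_sup _ hne (fun s : Fin n →₀ ℕ => s.sum fun _ e => e)
    exact ⟨m, hm, hmd⟩
  have h1 : coeff (m + Finsupp.single i 1) P ≠ 0 := by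
    intro h0
    have := coeff_pderiv (i := i) P m
    rw [h0, zero_mul] at this
    exact (mem_support_iff.1 hm) this
  have h2 := le_totalDegree (mem_support_iff.2 h1)
  have h3 : ((m + Finsupp.single i 1).sum fun _ e => e) = m.degree + 1 := by
    change (m + Finsupp.single i 1).degree = m.degree + 1
    rw [map_add, Finsupp.degree_single]
  omega

theorem VBD_chain {k K : Type u} [Field k] [Field K] [Algebra k K] {n : ℕ} (D : Derivation k K K)
    (a : Fin n → K) (P : MvPolynomial (Fin n) k) :
    D (aeval a P) = ∑ l, aeval a (pderiv l P) * D (a l) := by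
  induction P using MvPolynomial.induction_on with
  | C c =>
    rw [aeval_C, Derivation.map_algebraMap]
    simp
  | add p q hp hq =>
    rw [map_add, map_add, hp, hq, ← Finset.sum_add_distrib]
    refine Finset.sum_congr rfl fun l _ => ?_
    rw [map_add, map_add, add_mul]
  | mul_X p i hp =>
    rw [map_mul, aeval_X, D.leibniz, hp, smul_eq_mul, smul_eq_mul, Finset.mul_sum]
    have e : ∀ l, aeval a (pderiv l (p * X i)) * D (a l) =
        a i * (aeval a (pderiv l p) * D (a l)) + (if i = l then aeval a p * D (a i) else 0) := by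
      intro l
      rw [pderiv_mul, map_add, map_mul, map_mul, aeval_X]
      by_cases hil : i = l
      · subst hil
        rw [pderiv_X_self, map_one, if_pos rfl]
        ring
      · rw [pderiv_X_of_ne hil, map_zero, if_neg hil]
        ring
    rw [Finset.sum_congr rfl (fun l _ => e l), Finset.sum_add_distrib, Finset.sum_ite_eq,
      if_pos (Finset.mem_univ i)]
    ring

theorem VBD_ge0 {k K : Type u} [Field k] [Field K] [Algebra k K] {v : K → ℤ} (hv : DVal v)
    (hk : ∀ c : k, c ≠ 0 → v (algebraMap k K c) = 0) {n : ℕ} (a : Fin n → K) (ha : ∀ i, Ge v 0 (a i))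
    (P : MvPolynomial (Fin n) k) : Ge v 0 (aeval a P) := by
  induction P using MvPolynomial.induction_on with
  | C c =>
    rw [aeval_C]
    by_cases hc : c = 0
    · rw [hc, map_zero]
      exact Or.inl rfl
    · exact Or.inr (hk c hc).ge
  | add p q hp hq =>
    rw [map_add]
    exact CON_ge_add hv hp hq
  | mul_X p i hp =>
    rw [map_mul, aeval_X]
    have := CON_ge_mul hv hp (ha i)
    rwa [add_zero] at this

theorem VBD_sum {K : Type u} [Field K] {v : K → ℤ} (hv : DVal v) {r : ℤ} {ι : Type} (S : Finset ι)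
    (f : ι → K) (h : ∀ i ∈ S, Ge v r (f i)) : Ge v r (∑ i ∈ S, f i) := by
  classical
  induction S using Finset.induction_on with
  | empty => exact Or.inl rfl
  | insert i S hi ih =>
    rw [Finset.sum_insert hi]
    exact CON_ge_add hv (h i (Finset.mem_insert_self _ _)) (ih fun j hj => h j (Finset.mem_insert_of_mem hj))

theorem VBD_pow {K : Type u} [Field K] {v : K → ℤ} (hv : DVal v) {z : K} (hz : z ≠ 0) (i : ℕ) :
    v (z ^ i) = i * v z := by
  have := CON_zpow hv z hz (i : ℤ)
  rwa [zpow_natCast] at this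

/-- an element of positive value is not algebraic over a ring on which `v = 0` -/
theorem VBD_alg {S K : Type u} [CommRing S] [Field K] [Algebra S K] {v : K → ℤ} (hv : DVal v)
    (hS : ∀ s : S, s ≠ 0 → algebraMap S K s ≠ 0 ∧ v (algebraMap S K s) = 0) (z : K) (hz : z ≠ 0)
    (hvz : 0 < v z) : ¬ IsAlgebraic S z := by
  rintro ⟨P, hP, hPz⟩
  rw [Polynomial.aeval_eq_sum_range] at hPz
  have hc0 : P.coeff P.natTrailingDegree ≠ 0 := Polynomial.trailingCoeff_nonzero_iff_nonzero.2 hP
  have hmem : P.natTrailingDegree ∈ Finset.range (P.natDegree + 1) := by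
    rw [Finset.mem_range]
    have := P.natTrailingDegree_le_natDegree
    omega
  rw [← Finset.add_sum_erase _ _ hmem] at hPz
  have h1 : Ge v (((P.natTrailingDegree : ℤ) + 1) * v z)
      (∑ x ∈ (Finset.range (P.natDegree + 1)).erase P.natTrailingDegree, P.coeff x • z ^ x) := by
    refine VBD_sum hv _ _ fun i hi => ?_
    rw [Finset.mem_erase] at hi
    by_cases hci : P.coeff i = 0
    · rw [hci, zero_smul]
      exact Or.inl rfl
    · right
      obtain ⟨h2, h3⟩ := hS _ hci
      rw [Algebra.smul_def, hv.mul _ _ h2 (pow_ne_zero i hz), h3, VBD_pow hv hz, zero_add]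
      have h4 : P.natTrailingDegree ≤ i := Polynomial.natTrailingDegree_le_of_ne_zero hci
      have h5 : P.natTrailingDegree + 1 ≤ i := by
        have := hi.1
        omega
      have h6 : (P.natTrailingDegree : ℤ) + 1 ≤ i := by exact_mod_cast h5
      exact mul_le_mul_of_nonneg_right h6 hvz.le
  obtain ⟨h2, h3⟩ := hS _ hc0
  have h4 : P.coeff P.natTrailingDegree • z ^ P.natTrailingDegree ≠ 0 := by
    rw [Algebra.smul_def]
    exact mul_ne_zero h2 (pow_ne_zero _ hz)
  have h5 : v (P.coeff P.natTrailingDegree • z ^ P.natTrailingDegree) = P.natTrailingDegree * v z := by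
    rw [Algebra.smul_def, hv.mul _ _ h2 (pow_ne_zero _ hz), h3, VBD_pow hv hz, zero_add]
  have h6 : P.coeff P.natTrailingDegree • z ^ P.natTrailingDegree =
      -(∑ x ∈ (Finset.range (P.natDegree + 1)).erase P.natTrailingDegree, P.coeff x • z ^ x) :=
    eq_neg_of_add_eq_zero_left hPz
  have h7 := CON_ge_neg hv h1
  rw [← h6] at h7
  have h8 := h7.resolve_left h4
  rw [h5] at h8
  nlinarith

theorem VBD_exists {k F K : Type u} [Field k] [Field F] [Field K] [Algebra k F] [Algebra k K] [Algebra F K]
    [IsScalarTower k F K] [Algebra.IsAlgebraic F K] {n : ℕ} (x : Fin n → F) (hx : IsTranscendenceBasis k x)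
    {v : K → ℤ} (hv : DVal v) (hk : ∀ c : k, c ≠ 0 → v (algebraMap k K c) = 0) (a : Fin n → F)
    (ha : ∀ i, Ge v 0 (algebraMap F K (a i))) :
    ∃ P : MvPolynomial (Fin n) k, P ≠ 0 ∧ Ge v 1 (aeval (fun i => algebraMap F K (a i)) P) := by
  by_contra hcon
  push Not at hcon
  have h1 : ∀ P : MvPolynomial (Fin n) k, P ≠ 0 → algebraMap F K (aeval a P) ≠ 0 ∧
      v (algebraMap F K (aeval a P)) = 0 := by
    intro P hP
    have e : algebraMap F K (aeval a P) = aeval (fun i => algebraMap F K (a i)) P := by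
      rw [← aeval_algebraMap_apply]
      rfl
    have h2 := hcon P hP
    have h3 := VBD_ge0 hv hk (fun i => algebraMap F K (a i)) ha P
    rw [e]
    unfold Ge at h2 h3
    push Not at h2
    exact ⟨h2.1, by have := h3.resolve_left h2.1; omega⟩
  have hind : AlgebraicIndependent k a := by
    rw [algebraicIndependent_iff]
    intro P hP
    by_contra hP0
    have := (h1 P hP0).1
    rw [hP, map_zero] at this
    exact this rfl
  have hbas : IsTranscendenceBasis k a := by
    refine hind.isTranscendenceBasis_of_lift_trdeg_le_of_finite ?_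
    exact (hx.lift_cardinalMk_eq_trdeg).ge
  have halg := hbas.isAlgebraic
  have halg2 : Algebra.IsAlgebraic (Algebra.adjoin k (Set.range a)) K :=
    Algebra.IsAlgebraic.trans (Algebra.adjoin k (Set.range a)) F K
  have hmem : ∀ y ∈ Algebra.adjoin k (Set.range a), ∃ P : MvPolynomial (Fin n) k, aeval a P = y := by
    rw [Algebra.adjoin_range_eq_range_aeval]
    exact fun y hy => hy
  obtain ⟨z, hz, hvz⟩ := hv.one
  refine VBD_alg (S := Algebra.adjoin k (Set.range a)) hv ?_ z hz (by omega) (halg2.isAlgebraic z)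
  intro s hs
  obtain ⟨P, hP⟩ : ∃ P : MvPolynomial (Fin n) k, aeval a P = (s : F) := hmem _ s.2
  have hP0 : P ≠ 0 := by
    rintro rfl
    rw [map_zero] at hP
    exact hs (Subtype.ext hP.symm)
  have := h1 P hP0
  rw [hP] at this
  exact this

/-- a relation of minimal degree has a derivative of value `0` -/
theorem VBD_min {k K : Type u} [Field k] [IsAlgClosed k] [Field K] [Algebra k K] (p : ℕ) [Fact p.Prime]
    [CharP k p] {n : ℕ} {v : K → ℤ} (hv : DVal v) (hk : ∀ c : k, c ≠ 0 → v (algebraMap k K c) = 0)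
    (a : Fin n → K) (ha : ∀ i, Ge v 0 (a i))
    (hex : ∃ P : MvPolynomial (Fin n) k, P ≠ 0 ∧ Ge v 1 (aeval a P)) :
    ∃ (P : MvPolynomial (Fin n) k) (i : Fin n), Ge v 1 (aeval a P) ∧ aeval a (pderiv i P) ≠ 0 ∧
      v (aeval a (pderiv i P)) = 0 := by
  classical
  have hex2 : ∃ d : ℕ, ∃ P : MvPolynomial (Fin n) k, P ≠ 0 ∧ Ge v 1 (aeval a P) ∧ P.totalDegree = d := by
    obtain ⟨P, h1, h2⟩ := hex
    exact ⟨_, P, h1, h2, rfl⟩
  obtain ⟨P, hP0, hP1, hPd⟩ := Nat.find_spec hex2
  have hmin : ∀ Q : MvPolynomial (Fin n) k, Q ≠ 0 → Q.totalDegree < P.totalDegree →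
      aeval a Q ≠ 0 ∧ v (aeval a Q) = 0 := by
    intro Q hQ hQd
    have h2 : ¬ Ge v 1 (aeval a Q) := by
      intro h
      exact Nat.find_min hex2 (by rw [← hPd]; exact hQd) ⟨Q, hQ, h, rfl⟩
    have h3 := VBD_ge0 hv hk a ha Q
    unfold Ge at h2 h3
    push Not at h2
    exact ⟨h2.1, by have := h3.resolve_left h2.1; omega⟩
  have hpos : 0 < P.totalDegree := by
    by_contra h0
    have h0' : P.totalDegree = 0 := by omega
    have hC := totalDegree_eq_zero_iff_eq_C.1 h0'
    have hc0 : coeff 0 P ≠ 0 := by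
      intro h
      rw [h, C_0] at hC
      exact hP0 hC
    rw [hC, aeval_C] at hP1
    rcases hP1 with h | h
    · exact hc0 ((map_eq_zero _).1 h)
    · rw [hk _ hc0] at h
      omega
  obtain ⟨i, hi⟩ : ∃ i, pderiv i P ≠ 0 := by
    by_contra hcon
    push Not at hcon
    obtain ⟨Q, hQ⟩ := VBD_root p P hcon
    have hp2 : 2 ≤ p := (Fact.out : p.Prime).two_le
    have hQ0 : Q ≠ 0 := by
      rintro rfl
      rw [zero_pow (by omega)] at hQ
      exact hP0 hQ
    have hdeg : P.totalDegree = p * Q.totalDegree := by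
      rw [hQ]
      exact VBD_deg_pow Q hQ0 p
    have hlt : Q.totalDegree < P.totalDegree := by
      have : 0 < Q.totalDegree := by
        by_contra h
        have h' : Q.totalDegree = 0 := by omega
        rw [h', mul_zero] at hdeg
        omega
      nlinarith
    obtain ⟨h1, h2⟩ := hmin Q hQ0 hlt
    rw [hQ, map_pow] at hP1
    rcases hP1 with h | h
    · exact pow_ne_zero p h1 h
    · rw [VBD_pow hv h1, h2, mul_zero] at h
      omega
  obtain ⟨h1, h2⟩ := hmin _ hi (VBD_deg_pderiv P i hi)
  exact ⟨P, i, hP1, h1, h2⟩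

theorem VBD_JJ {k K : Type u} [Field k] [Field K] [Algebra k K] {n : ℕ} (D : Fin n → Derivation k K K)
    (a : Fin n → K) (P : MvPolynomial (Fin n) k) (i : Fin n) :
    JJ D (Function.update a i (aeval a P)) = aeval a (pderiv i P) * JJ D a := by
  classical
  unfold JJ
  have h := Matrix.det_updateRow_sum (Matrix.of fun r j => D j (a r)) i (fun l => aeval a (pderiv l P))
  rw [smul_eq_mul] at h
  rw [← h]
  congr 1
  ext r j
  by_cases hr : r = i
  · subst hr
    rw [Matrix.updateRow_self, Matrix.of_apply, Function.update_self, VBD_chain, Finset.sum_apply]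
    rfl
  · rw [Matrix.updateRow_ne hr, Matrix.of_apply, Matrix.of_apply, Function.update_of_ne hr]

theorem VBD_upd {k F K : Type u} [Field k] [Field F] [Field K] [Algebra k K] [Algebra F K] {n : ℕ}
    (D : Fin n → Derivation k K K) {v : K → ℤ} (hv : DVal v) (c : ℤ) (hc : LogGe F v D c) (e : ℤ)
    (b : Fin n → F) (i : Fin n) (hi : Ge v e (algebraMap F K (b i)))
    (hb : ∀ l, l ≠ i → Ge v 0 (algebraMap F K (b l))) : Ge v (e + c) (JJ D fun l => algebraMap F K (b l)) := by
  classical
  by_cases h0 : ∀ l, b l ≠ 0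
  · have h1 := hc b h0
    have h2 := CON_ge_prod hv (Finset.univ : Finset (Fin n)) (fun l => if l = i then e else 0)
      (fun l => algebraMap F K (b l)) (fun l _ => by
        by_cases hl : l = i
        · simp only [hl, if_true]
          exact hi
        · simp only [hl, if_false]
          exact hb l hl)
    rw [Finset.sum_ite_eq' Finset.univ i, if_pos (Finset.mem_univ i)] at h2
    have h3 := CON_ge_mul hv h2 h1
    have h4 : ∏ l, algebraMap F K (b l) ≠ 0 :=
      Finset.prod_ne_zero_iff.2 fun l _ => (map_ne_zero _).2 (h0 l)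
    rwa [mul_div_cancel₀ _ h4] at h3
  · push Not at h0
    obtain ⟨l, hl⟩ := h0
    left
    unfold JJ
    refine Matrix.det_eq_zero_of_row_eq_zero l fun j => ?_
    rw [Matrix.of_apply]
    simp only [hl, map_zero]

theorem VBD : VBD_stmt.{u} := by
  intro k F K _ _ _ _ _ _ _ _ _ n p _ _ x hx D v hv hk c hc e he a ha
  classical
  obtain ⟨P, i, hP1, hg0, hg1⟩ := VBD_min p hv hk (fun i => algebraMap F K (a i)) ha
    (VBD_exists x hx hv hk a ha)
  have hJ := VBD_JJ D (fun i => algebraMap F K (a i)) P i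
  have e1 : algebraMap F K (aeval a P) = aeval (fun i => algebraMap F K (a i)) P := by
    rw [← aeval_algebraMap_apply]
    rfl
  have e2 : Function.update (fun i => algebraMap F K (a i)) i (aeval (fun i => algebraMap F K (a i)) P) =
      fun l => algebraMap F K (Function.update a i (aeval a P) l) := by
    funext l
    by_cases hl : l = i
    · subst hl
      rw [Function.update_self, Function.update_self, e1]
    · rw [Function.update_of_ne hl, Function.update_of_ne hl]
  have h1 : Ge v (e + c) (JJ D fun l => algebraMap F K (Function.update a i (aeval a P) l)) := by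
    refine VBD_upd D hv c hc e _ i ?_ ?_
    · rw [Function.update_self, e1]
      by_cases h0 : aeval a P = 0
      · left
        rw [← e1, h0, map_zero]
      · right
        rw [← e1] at hP1 ⊢
        have h2 := hP1.resolve_left ((map_ne_zero _).2 h0)
        exact he _ h0 (by omega)
    · intro l hl
      rw [Function.update_of_ne hl]
      exact ha l
  rw [← e2, hJ] at h1
  have h2 : Ge v 0 (aeval (fun i => algebraMap F K (a i)) (pderiv i P))⁻¹ := by
    right
    rw [CON_inv hv _ hg0, hg1, neg_zero]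
  have h3 := CON_ge_mul hv h2 h1
  rwa [zero_add, inv_mul_cancel_left₀ hg0] at h3

end Pool.Agent.QS
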