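import Pool.Agent.helper4.QS.Spec

/-!
# MP_07c750_an: LACL, lacunarity in the lattice
-/

open scoped BigOperators ComplexOrder ComplexConjugate Topology

namespace Pool.Agent.QS

open Pool.Agent.helper86.CM
open Filter

noncomputable section

/-- The two dimensional identity for three vectors. -/
theorem LACL_id (a b c : Lat 1) : omega a b • c + omega b c • a + omega c a • b = 0 := by
  ext i
  rcases i with i | i <;>
  · fin_cases i
    simp [omega]
    ring

/-- If `ω(b, n) = 0` and `ω(b, B n) = 0` then `n = 0`. -/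
theorem LACL_zero {B : Lat 1 ≃ₗ[ℤ] Lat 1} {t : ℤ} (h : Cat B t) {b n : Lat 1}
    (hb : omega b (B b) ≠ 0) (h1 : omega b n = 0) (h2 : omega b (B n) = 0) : n = 0 := by
  have h3 : omega (B b) (B n) = 0 := by rw [h.om]; exact h1
  have h4 := LACL_id b (B b) (B n)
  rw [h3, omega_swap (B n) b, h2] at h4
  simp only [zero_smul, neg_zero, add_zero] at h4
  have h5 : B n = 0 := by
    rcases smul_eq_zero.mp h4 with h6 | h6
    · exact absurd h6 hb
    · exact h6
  exact B.map_eq_zero_iff.mp h5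

/-- LACL. -/
theorem LACL (hBET : BET_stmt) (hQF0 : QF0_stmt) (hLUL : LUL_stmt) (hNRM : NRM_stmt)
    (hOMB : OMB_stmt) : LACL_stmt := by
  intro B t hB
  obtain ⟨⟨hl2, hlt, -⟩, -⟩ := hLUL t hB.lt
  obtain ⟨hβ, -, -, han⟩ := hBET B t hB
  obtain ⟨C, hC1, hC⟩ := hNRM B t hB
  set L : ℝ := lam t with hL
  have hLpos : 0 < L := by linarith
  have hLi : L⁻¹ ≤ L := by
    have : L⁻¹ ≤ 1 := inv_le_one_of_one_le₀ (by linarith)
    linarith
  have hLi0 : 0 < L⁻¹ := inv_pos.mpr hLpos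
  have hLL : L * L⁻¹ = 1 := mul_inv_cancel₀ hLpos.ne'
  let b : Lat 1 := fun _ => 1
  have hb0 : b ≠ 0 := by
    intro h0
    have := congrFun h0 (Sum.inl 0)
    simp [b] at this
  have hbω := han b hb0
  -- the bounds
  have hx : ∀ n : Lat 1, |(omega b (B n) : ℝ)| ≤ 2 * ‖b‖ * C * L * ‖n‖ := by
    intro n
    have h1 := hOMB b (B n)
    have h2 := hC 1 n
    rw [pw_one] at h2
    simp only [Int.natAbs_one, pow_one] at h2
    have h3 : 2 * ‖b‖ * ‖B n‖ ≤ 2 * ‖b‖ * (C * L * ‖n‖) :=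
      mul_le_mul_of_nonneg_left h2 (by positivity)
    calc |(omega b (B n) : ℝ)| ≤ 2 * ‖b‖ * ‖B n‖ := h1
      _ ≤ 2 * ‖b‖ * (C * L * ‖n‖) := h3
      _ = 2 * ‖b‖ * C * L * ‖n‖ := by ring
  have hy : ∀ n : Lat 1, |(omega b n : ℝ)| ≤ 2 * ‖b‖ * ‖n‖ := fun n => hOMB b n
  set K : ℝ := 2 * ‖b‖ * C * L + L * (2 * ‖b‖) with hK
  have hK0 : 0 ≤ K := by
    have := norm_nonneg b
    positivity
  have hf : ∀ n : Lat 1, |beta B t b n| ≤ K * ‖n‖ := by
    intro n
    unfold beta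
    have h1 := hx n
    have h2 := hy n
    have h3 : |(L⁻¹ : ℝ) * (omega b n : ℝ)| ≤ L * (2 * ‖b‖ * ‖n‖) := by
      rw [abs_mul, abs_of_pos hLi0]
      exact mul_le_mul hLi h2 (abs_nonneg _) hLpos.le
    calc |(omega b (B n) : ℝ) - L⁻¹ * (omega b n : ℝ)|
        ≤ |(omega b (B n) : ℝ)| + |L⁻¹ * (omega b n : ℝ)| := abs_sub _ _
      _ ≤ 2 * ‖b‖ * C * L * ‖n‖ + L * (2 * ‖b‖ * ‖n‖) := add_le_add h1 h3
      _ = K * ‖n‖ := by rw [hK]; ring
  have hf' : ∀ n : Lat 1, |(omega b (B n) : ℝ) - L * (omega b n : ℝ)| ≤ K * ‖n‖ := by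
    intro n
    have h1 := hx n
    have h2 := hy n
    have h3 : |L * (omega b n : ℝ)| ≤ L * (2 * ‖b‖ * ‖n‖) := by
      rw [abs_mul, abs_of_pos hLpos]
      exact mul_le_mul_of_nonneg_left h2 hLpos.le
    calc |(omega b (B n) : ℝ) - L * (omega b n : ℝ)|
        ≤ |(omega b (B n) : ℝ)| + |L * (omega b n : ℝ)| := abs_sub _ _
      _ ≤ 2 * ‖b‖ * C * L * ‖n‖ + L * (2 * ‖b‖ * ‖n‖) := add_le_add h1 h3
      _ = K * ‖n‖ := by rw [hK]; ring
  -- the lower bound
  have hlow : ∀ n : Lat 1, n ≠ 0 → 1 ≤ |beta B t b n| * (K * ‖n‖) := by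
    intro n hn
    have h1 : (omega b (B n)) ^ 2 + t * (omega b (B n)) * (-(omega b n)) + (-(omega b n)) ^ 2 ≠ 0 := by
      intro h0
      obtain ⟨h2, h3⟩ := hQF0 t hB.lt _ _ h0
      exact hn (LACL_zero hB hbω (by linarith) h2)
    have h2 : (1 : ℝ) ≤ |(((omega b (B n)) ^ 2 + t * (omega b (B n)) * (-(omega b n)) +
        (-(omega b n)) ^ 2 : ℤ) : ℝ)| := by
      rw [← Int.cast_abs]
      exact_mod_cast Int.one_le_abs h1
    have h3 : ((((omega b (B n)) ^ 2 + t * (omega b (B n)) * (-(omega b n)) +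
        (-(omega b n)) ^ 2 : ℤ) : ℝ)) =
        beta B t b n * ((omega b (B n) : ℝ) - L * (omega b n : ℝ)) := by
      unfold beta
      rw [← hL]
      push_cast
      rw [← hlt]
      linear_combination (-(omega b n : ℝ) ^ 2) * hLL
    rw [h3, abs_mul] at h2
    exact h2.trans (mul_le_mul_of_nonneg_left (hf' n) (abs_nonneg _))
  let F : Lat 1 →+ ℝ := AddMonoidHom.mk' (fun n => beta B t b n) (by
    intro m n
    simp only [beta, map_add, omega_add_right]
    push_cast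
    ring)
  have hF : ∀ n, F n = beta B t b n := fun n => rfl
  refine ⟨K ^ 2 + 2, by nlinarith [sq_nonneg K], ?_⟩
  intro s J R hs hR hCR n hn hsum
  by_contra hcon
  push Not at hcon
  obtain ⟨j0, hj0, hnj0⟩ := hcon
  set q : ℝ := L ^ s with hq
  have hq1 : 1 + K ^ 2 * R ^ 2 < q := by
    nlinarith [sq_nonneg K, sq_nonneg R]
  have hq0 : 1 < q := by nlinarith [sq_nonneg K, sq_nonneg R, mul_nonneg (sq_nonneg K) (sq_nonneg R)]
  -- the largest index
  obtain ⟨j, hjm, hjmax⟩ := Finset.exists_max_image ((Finset.range J).filter fun i => n i ≠ 0) id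
    ⟨j0, by simp [hj0, hnj0]⟩
  rw [Finset.mem_filter, Finset.mem_range] at hjm
  obtain ⟨hjJ, hnj⟩ := hjm
  have hzero : ∀ i, j < i → i < J → n i = 0 := by
    intro i hji hiJ
    by_contra hni
    have := hjmax i (by simp [hiJ, hni])
    simp only [id] at this
    omega
  -- the sum
  have hS : ∑ i ∈ Finset.range J, q ^ i * F (n i) = 0 := by
    have h1 := congrArg F hsum
    rw [map_sum, map_zero] at h1
    rw [← h1]
    refine Finset.sum_congr rfl fun i _ => ?_
    rw [hF, hF, hβ]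
    rw [zpow_natCast, hq, ← pow_mul]
  have hS2 : ∑ i ∈ Finset.range (j + 1), q ^ i * F (n i) = 0 := by
    rw [← hS]
    refine Finset.sum_subset (fun i hi => ?_) (fun i hi hni => ?_)
    · rw [Finset.mem_range] at hi ⊢
      omega
    · rw [Finset.mem_range] at hi hni
      rw [hzero i (by omega) hi, map_zero, mul_zero]
  rw [Finset.sum_range_succ] at hS2
  have hS3 : q ^ j * |F (n j)| ≤ ∑ i ∈ Finset.range j, q ^ i * (K * R) := by
    have h1 : q ^ j * F (n j) = -∑ i ∈ Finset.range j, q ^ i * F (n i) := by linarith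
    have h2 : q ^ j * |F (n j)| = |q ^ j * F (n j)| := by
      rw [abs_mul, abs_of_pos (show 0 < q ^ j by positivity)]
    rw [h2, h1, abs_neg]
    refine (Finset.abs_sum_le_sum_abs _ _).trans (Finset.sum_le_sum fun i hi => ?_)
    rw [Finset.mem_range] at hi
    rw [abs_mul, abs_of_pos (show 0 < q ^ i by positivity)]
    refine mul_le_mul_of_nonneg_left ?_ (by positivity)
    rw [hF]
    exact (hf _).trans (mul_le_mul_of_nonneg_left (hn i (by omega)) hK0)
  rw [← Finset.sum_mul] at hS3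
  have hgeo : (∑ i ∈ Finset.range j, q ^ i) * (q - 1) = q ^ j - 1 := geom_sum_mul q j
  have hqj : 0 < q ^ j := by positivity
  have hS4 : (q - 1) * |F (n j)| ≤ K * R := by
    have h1 : (q - 1) * (q ^ j * |F (n j)|) ≤ (q - 1) * ((∑ i ∈ Finset.range j, q ^ i) * (K * R)) :=
      mul_le_mul_of_nonneg_left hS3 (by linarith)
    have h2 : (q - 1) * ((∑ i ∈ Finset.range j, q ^ i) * (K * R)) = (q ^ j - 1) * (K * R) := by
      rw [← hgeo]; ring
    have h3 : (q ^ j - 1) * (K * R) ≤ q ^ j * (K * R) := by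
      have := mul_nonneg hK0 hR
      nlinarith
    have h4 : q ^ j * ((q - 1) * |F (n j)|) ≤ q ^ j * (K * R) := by
      calc q ^ j * ((q - 1) * |F (n j)|) = (q - 1) * (q ^ j * |F (n j)|) := by ring
        _ ≤ _ := h1
        _ = _ := h2
        _ ≤ _ := h3
    exact le_of_mul_le_mul_left h4 hqj
  have hl := hlow (n j) hnj
  rw [← hF] at hl
  have hl2' : 1 ≤ |F (n j)| * (K * R) :=
    hl.trans (mul_le_mul_of_nonneg_left (mul_le_mul_of_nonneg_left (hn j hjJ) hK0) (abs_nonneg _))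
  have h9 : (q - 1) * 1 ≤ (q - 1) * (|F (n j)| * (K * R)) :=
    mul_le_mul_of_nonneg_left hl2' (by linarith)
  have h10 : (q - 1) * (|F (n j)| * (K * R)) ≤ (K * R) * (K * R) := by
    calc (q - 1) * (|F (n j)| * (K * R)) = ((q - 1) * |F (n j)|) * (K * R) := by ring
      _ ≤ (K * R) * (K * R) := mul_le_mul_of_nonneg_right hS4 (mul_nonneg hK0 hR)
  nlinarith

end

end Pool.Agent.QS
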